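import Pool.Agent.helper64.D2.SpecR

set_option autoImplicit false

open Filter Topology
open scoped commutatorElement

namespace Pool.Agent.helper64.D2

theorem RST_cont (f : ℝ → ℝ) (hf : ContDiff ℝ 2 f) : Continuous (d2 f) := by
  have e2 : (1 + 1 : WithTop ℕ∞) = 2 := by norm_num
  have e1 : (0 + 1 : WithTop ℕ∞) = 1 := by norm_num
  have h1 : ContDiff ℝ (1 + 1) f := by
    rw [e2]
    exact hf
  have h2 : ContDiff ℝ (0 + 1) (deriv f) := by
    rw [e1]
    exact (contDiff_succ_iff_deriv.1 h1).2.2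
  exact (contDiff_succ_iff_deriv.1 h2).2.2.continuous

theorem RST_alg (η σ Z β τ P K K' : ℝ) (hη : 0 ≤ η) (hZ : 0 ≤ Z) (hβ : 0 < β) (hK : 0 ≤ K)
    (hP : 1 + 2 * P / β ≤ (1 + σ) * (1 + 2 * K / β) ^ 2)
    (hτ : (1 + 2 * η) * (1 + σ) + 6 * η * Z / β ≤ 1 + τ)
    (hK' : K' ≤ (1 + 2 * η) * P + 3 * η * Z) :
    1 + 2 * K' / β ≤ (1 + τ) * (1 + 2 * K / β) ^ 2 := by
  have h1 : 2 * K' / β ≤ 2 * ((1 + 2 * η) * P + 3 * η * Z) / β := by gcongr
  have h2 : 2 * ((1 + 2 * η) * P + 3 * η * Z) / β = (1 + 2 * η) * (2 * P / β) + 6 * η * Z / β := by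
    ring
  have h3 : (1 : ℝ) ≤ (1 + 2 * K / β) ^ 2 := by
    have h4 : 0 ≤ 2 * K / β := by positivity
    nlinarith
  have h5 : 0 ≤ 6 * η * Z / β := by positivity
  have h6 : (1 + 2 * η) * (1 + 2 * P / β) ≤ (1 + 2 * η) * ((1 + σ) * (1 + 2 * K / β) ^ 2) :=
    mul_le_mul_of_nonneg_left hP (by linarith)
  have h7 : ((1 + 2 * η) * (1 + σ) + 6 * η * Z / β) * (1 + 2 * K / β) ^ 2 ≤
      (1 + τ) * (1 + 2 * K / β) ^ 2 := mul_le_mul_of_nonneg_right hτ (by positivity)
  have h8 : 6 * η * Z / β * 1 ≤ 6 * η * Z / β * (1 + 2 * K / β) ^ 2 :=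
    mul_le_mul_of_nonneg_left h3 h5
  have h9 : ((1 + 2 * η) * (1 + σ) + 6 * η * Z / β) * (1 + 2 * K / β) ^ 2 =
      (1 + 2 * η) * ((1 + σ) * (1 + 2 * K / β) ^ 2) + 6 * η * Z / β * (1 + 2 * K / β) ^ 2 := by ring
  rw [h2] at h1
  linarith

theorem RST (hRG1 : RG1_stmt) (hRC2 : RC2_stmt) (hRAV : RAV_stmt) (hRPA : RPA_stmt) : RST_stmt := by
  obtain ⟨C, hC, HP⟩ := hRPA
  refine ⟨max C 4, hC.trans (le_max_left _ _), ?_⟩
  intro R X p q a L lam β μ τ hR hSH hL ha hL0 hqβ hβ hCβ hμ hη1 hτ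
  obtain ⟨hder, -, G, hG, -, -, -⟩ := hRG1 X p q a lam hSH
  have hSH' := hSH
  obtain ⟨hX, hsup, hlam, hd2, hp, hpq, hq, hlam0, hlam8, ha0⟩ := hSH'
  have hCpos : 0 < C := by linarith
  have hCβ' : C * β ≤ 1 := (mul_le_mul_of_nonneg_right (le_max_left _ _) hβ.le).trans hCβ
  have hβ4 : β ≤ 1 / 4 := by
    have : 4 * β ≤ 1 := (mul_le_mul_of_nonneg_right (le_max_right _ _) hβ.le).trans hCβ
    linarith
  obtain ⟨hK0, θ, hθ0, hθβ, hPH⟩ := hRAV X G p q a lam hSH hG β μ hβ hβ4 hμ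
  obtain ⟨T, x2, X', hRep, hSt, hlam', hT, hx2, hdiff⟩ := HP R X G p q a L lam θ hR hSH hG hL ha hL0
    (by linarith) hθ0 ((mul_le_mul_of_nonneg_left hθβ hCpos.le).trans hCβ')
  refine ⟨T, x2, X', hRep, ?_, hlam', ?_, hx2, ?_⟩
  · refine ⟨hSt.1, fun x hx => hSt.2.1 x fun h => hx ⟨h.1, by linarith [h.2]⟩, hSt.2.2.1, hSt.2.2.2⟩
  · intro x
    refine (hT x).trans ?_
    calc C * θ ≤ C * β := mul_le_mul_of_nonneg_left hθβ hCpos.le
      _ ≤ max C 4 * β := mul_le_mul_of_nonneg_right (le_max_left _ _) hβ.le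
  · have hη0 : 0 ≤ 4 * μ * lam * a := by positivity
    have hZ1 : (1 : ℝ) ≤ max 1 (2 * μ * a) := le_max_left _ _
    refine RST_alg (4 * μ * lam * a) (lam + 6 * μ * lam / β + 6 * μ ^ 2 * a * lam / β ^ 2)
      (max 1 (2 * μ * a)) β τ (PH X G μ θ) (KK X μ) (KK X' (2 * μ)) hη0 (by linarith) hβ hK0 hPH hτ ?_
    have hcX := RST_cont X hX
    have hcX' := RST_cont X' hSt.1
    have hcH : Continuous (Hh X) := by
      unfold Hh
      exact continuous_id.add (hX.continuous.div_const 2)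
    have hcG := hG.2.2
    have hc1 : Continuous fun u : ℝ => Real.cosh (2 * μ * d2 X' u) - 1 := by fun_prop
    have hc2 : Continuous fun u : ℝ => Real.cosh (μ * (d2 X u + d2 X (G (Hh X u - θ)))) - 1 := by
      have h1 : Continuous fun u : ℝ => d2 X (G (Hh X u - θ)) :=
        hcX.comp (hcG.comp (hcH.sub continuous_const))
      exact (Real.continuous_cosh.comp (continuous_const.mul (hcX.add h1))).sub continuous_const
    have hpt : ∀ u ∈ Set.Icc (0 : ℝ) 1, Real.cosh (2 * μ * d2 X' u) - 1 ≤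
        (1 + 2 * (4 * μ * lam * a)) * (Real.cosh (μ * (d2 X u + d2 X (G (Hh X u - θ)))) - 1) +
          3 * (4 * μ * lam * a) * max 1 (2 * μ * a) := by
      intro u _
      have e : 2 * μ * d2 X' u = μ * (d2 X u + d2 X (G (Hh X u - θ))) +
          2 * μ * (d2 X' u - (d2 X u + d2 X (G (Hh X u - θ))) / 2) := by ring
      rw [e]
      refine hRC2.1 _ _ _ _ ?_ hη1 ?_ hZ1
      · rw [abs_mul, abs_of_nonneg (by positivity : (0 : ℝ) ≤ 2 * μ)]
        calc 2 * μ * |d2 X' u - (d2 X u + d2 X (G (Hh X u - θ))) / 2| ≤ 2 * μ * (2 * lam * a) :=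
              mul_le_mul_of_nonneg_left (hdiff u) (by positivity)
          _ = 4 * μ * lam * a := by ring
      · rw [abs_mul, abs_of_nonneg hμ]
        calc μ * |d2 X u + d2 X (G (Hh X u - θ))| ≤ μ * (a + a) :=
              mul_le_mul_of_nonneg_left ((abs_add_le _ _).trans (add_le_add (hd2 _) (hd2 _))) hμ
          _ = 2 * μ * a := by ring
          _ ≤ max 1 (2 * μ * a) := le_max_right _ _
    unfold KK PH
    calc (∫ x in (0 : ℝ)..1, (Real.cosh (2 * μ * d2 X' x) - 1))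
        ≤ ∫ u in (0 : ℝ)..1, ((1 + 2 * (4 * μ * lam * a)) *
            (Real.cosh (μ * (d2 X u + d2 X (G (Hh X u - θ)))) - 1) +
            3 * (4 * μ * lam * a) * max 1 (2 * μ * a)) :=
          intervalIntegral.integral_mono_on (by norm_num) (hc1.intervalIntegrable _ _)
            (((continuous_const.mul hc2).add continuous_const).intervalIntegrable _ _) hpt
      _ = _ := by
          have hi : IntervalIntegrable (fun u : ℝ => (1 + 2 * (4 * μ * lam * a)) *
              (Real.cosh (μ * (d2 X u + d2 X (G (Hh X u - θ)))) - 1)) MeasureTheory.volume 0 1 :=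
            (continuous_const.mul hc2).intervalIntegrable _ _
          rw [intervalIntegral.integral_add hi (continuous_const.intervalIntegrable _ _),
            intervalIntegral.integral_const_mul, intervalIntegral.integral_const]
          simp

end Pool.Agent.helper64.D2
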