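import Pool.Agent.helper64.D2.SpecC

set_option autoImplicit false

open Filter Topology
open scoped commutatorElement

namespace Pool.Agent.helper64.D2

theorem SMA_der2 (φ : ℝ → ℝ) (hφ : ContDiff ℝ 2 φ) : ContDiff ℝ 1 (deriv φ) := by
  have h : ContDiff ℝ (1 + 1) φ := by
    have e : (1 + 1 : WithTop ℕ∞) = 2 := by norm_num
    rw [e]
    exact hφ
  exact (contDiff_succ_iff_deriv.1 h).2.2

theorem SMA_der1 (φ : ℝ → ℝ) (hφ : ContDiff ℝ 1 φ) : ContDiff ℝ 0 (deriv φ) := by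
  have h : ContDiff ℝ (0 + 1) φ := by
    have e : (0 + 1 : WithTop ℕ∞) = 1 := by norm_num
    rw [e]
    exact hφ
  exact (contDiff_succ_iff_deriv.1 h).2.2

theorem SMA_bound (φ : ℝ → ℝ) (hφ : ContDiff ℝ 2 φ) (h0 : ∀ x, x ∉ Set.Ioo (0 : ℝ) 1 → φ x = 0) :
    ∃ B : ℝ, 0 ≤ B ∧ ∀ x, |deriv φ x| ≤ B ∧ |d2 φ x| ≤ B := by
  have hc : HasCompactSupport φ := by
    refine HasCompactSupport.intro (isCompact_Icc (a := (0 : ℝ)) (b := 1)) fun x hx => h0 x fun h => hx ⟨h.1.le, h.2.le⟩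
  have h1 : ContDiff ℝ 1 (deriv φ) := SMA_der2 φ hφ
  have h2 : ContDiff ℝ 0 (deriv (deriv φ)) := SMA_der1 _ h1
  obtain ⟨B1, hB1⟩ := h1.continuous.bounded_above_of_compact_support hc.deriv
  obtain ⟨B2, hB2⟩ := h2.continuous.bounded_above_of_compact_support hc.deriv.deriv
  refine ⟨max (max B1 B2) 0, le_max_right _ _, fun x => ⟨?_, ?_⟩⟩
  · exact (hB1 x).trans ((le_max_left _ _).trans (le_max_left _ _))
  · exact (hB2 x).trans ((le_max_right _ _).trans (le_max_left _ _))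

theorem SMA_gen (hDIF : DIF_stmt) (φ : ℝ → ℝ) (hφ : ContDiff ℝ 2 φ) (h0 : ∀ x, x ∉ Set.Ioo (0 : ℝ) 1 → φ x = 0) :
    ∃ C : ℝ, 1 ≤ C ∧ ∀ θ : ℝ, |θ| ≤ 1 / C → ∃ g : DD, Rep g (fun x => θ * φ x) ∧ Sz g (C * |θ|) := by
  obtain ⟨B, hB0, hB⟩ := SMA_bound φ hφ h0
  refine ⟨2 * B + 1, by linarith, fun θ hθ => ?_⟩
  have hC : (0 : ℝ) < 2 * B + 1 := by linarith
  have hθ1 : (2 * B + 1) * |θ| ≤ 1 := by
    rw [le_div_iff₀ hC] at hθ
    linarith
  have hd : Differentiable ℝ φ := hφ.differentiable (by norm_num)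
  have h1 : ContDiff ℝ 1 (deriv φ) := SMA_der2 φ hφ
  have hd1 : Differentiable ℝ (deriv φ) := h1.differentiable (by norm_num)
  have e1 : deriv (fun x => θ * φ x) = fun x => θ * deriv φ x := by
    funext x
    exact deriv_const_mul θ (hd x)
  have e2 : ∀ x, |θ * deriv φ x| ≤ 1 / 2 := by
    intro x
    rw [abs_mul]
    have := mul_le_mul_of_nonneg_left (hB x).1 (abs_nonneg θ)
    nlinarith [abs_nonneg θ]
  obtain ⟨g, hg⟩ := hDIF (fun x => θ * φ x) (contDiff_const.mul hφ)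
    (fun x hx => by simp [h0 x hx]) (fun x => by rw [e1]; exact e2 x)
  refine ⟨g, hg, fun x => ?_⟩
  have e3 : ev g = fun x => x + θ * φ x := by
    funext x
    exact hg x
  have e4 : deriv (ev g) = fun x => 1 + θ * deriv φ x := by
    rw [e3]
    funext x
    exact ((hasDerivAt_id x).add (((hd x).hasDerivAt).const_mul θ)).deriv
  have e5 : d2 (ev g) x = θ * d2 φ x := by
    unfold d2
    rw [e4]
    exact ((((hd1 x).hasDerivAt).const_mul θ).const_add 1).deriv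
  rw [e5, abs_mul]
  have := mul_le_mul_of_nonneg_left (hB x).2 (abs_nonneg θ)
  nlinarith [abs_nonneg θ]

theorem SMA (hDIF : DIF_stmt) : SMA_stmt := by
  let ψ : ℝ → ℝ := fun x => Real.smoothTransition (10 * x - 1) * Real.smoothTransition (9 - 10 * x)
  have hψ : ContDiff ℝ 2 ψ := by
    refine ContDiff.mul ?_ ?_
    · exact Real.smoothTransition.contDiff.comp ((contDiff_const.mul contDiff_id).sub contDiff_const)
    · exact Real.smoothTransition.contDiff.comp (contDiff_const.sub (contDiff_const.mul contDiff_id))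
  have h0 : ∀ x, x ∉ Set.Ioo (0 : ℝ) 1 → ψ x = 0 := by
    intro x hx
    simp only [ψ]
    rcases le_or_gt x 0 with h | h
    · rw [Real.smoothTransition.zero_of_nonpos (by linarith), zero_mul]
    · have h1 : 1 ≤ x := by
        by_contra hc
        exact hx ⟨h, not_le.1 hc⟩
      rw [Real.smoothTransition.zero_of_nonpos (x := 9 - 10 * x) (by linarith), mul_zero]
  have h1 : ∀ x ∈ Set.Icc (1 / 5 : ℝ) (4 / 5), ψ x = 1 := by
    intro x hx
    simp only [ψ]
    rw [Real.smoothTransition.one_of_one_le (by linarith [hx.1]),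
      Real.smoothTransition.one_of_one_le (by linarith [hx.2]), mul_one]
  obtain ⟨C1, hC1, H1⟩ := SMA_gen hDIF ψ hψ h0
  obtain ⟨C2, hC2, H2⟩ := SMA_gen hDIF (fun x => ψ x * x) (hψ.mul contDiff_id)
    (fun x hx => by rw [h0 x hx, zero_mul])
  refine ⟨max C1 C2, hC1.trans (le_max_left _ _), fun θ hθ => ?_, fun θ hθ => ?_⟩
  · obtain ⟨g, hg, hs⟩ := H1 θ (hθ.trans (one_div_le_one_div_of_le (by linarith) (le_max_left _ _)))
    refine ⟨g, fun y hy => ?_, fun x => (hs x).trans (mul_le_mul_of_nonneg_right (le_max_left _ _) (abs_nonneg θ))⟩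
    rw [hg y]
    show y + θ * ψ y = y + θ
    rw [h1 y hy, mul_one]
  · obtain ⟨g, hg, hs⟩ := H2 θ (hθ.trans (one_div_le_one_div_of_le (by linarith) (le_max_right _ _)))
    refine ⟨g, fun y hy => ?_, fun x => (hs x).trans (mul_le_mul_of_nonneg_right (le_max_right _ _) (abs_nonneg θ))⟩
    rw [hg y]
    show y + θ * (ψ y * y) = (1 + θ) * y
    rw [h1 y hy]
    ring

end Pool.Agent.helper64.D2
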